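import Mathlib

/-!
# Automorphic and geometric equivalence for commutative associative algebras: definitions
-/

set_option autoImplicit false

open CategoryTheory

namespace Pool.Agent.X278.GE

/-- The polynomials in the variables from `X` without constant term. -/
def Aug (k : Type) [Field k] (X : Finset ℕ) : NonUnitalSubalgebra k (MvPolynomial X k) where
  carrier := {p | MvPolynomial.constantCoeff p = 0}
  add_mem' := by
    intro p q hp hq
    simp only [Set.mem_ofPred_eq] at hp hq ⊢
    rw [map_add, hp, hq, add_zero]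
  zero_mem' := by simp
  mul_mem' := by
    intro p q hp hq
    simp only [Set.mem_ofPred_eq] at hp hq ⊢
    rw [map_mul, hp, zero_mul]
  smul_mem' := by
    intro c p hp
    simp only [Set.mem_ofPred_eq] at hp ⊢
    rw [MvPolynomial.smul_eq_C_mul, map_mul, hp, mul_zero]

/-- The free commutative associative (not necessarily unital) `k`-algebra `F(X)` on the finite set
`X ⊂ ℕ`: the polynomials in the variables from `X` without constant term. -/
def Free (k : Type) [Field k] (X : Finset ℕ) : Type := Aug k X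

noncomputable instance (k : Type) [Field k] (X : Finset ℕ) : NonUnitalCommRing (Free k X) :=
  NonUnitalSubalgebra.toNonUnitalCommRing (Aug k X)

noncomputable instance (k : Type) [Field k] (X : Finset ℕ) : Module k (Free k X) :=
  NonUnitalSubalgebra.instModule (S := Aug k X)

/-- A commutative associative (not necessarily unital) `k`-algebra, that is an object of `Θ`. -/
structure CAlg (k : Type) [Field k] : Type 1 where
  /-- the underlying set -/
  car : Type
  /-- addition and multiplication -/
  [ring : NonUnitalCommRing car]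
  /-- multiplication with scalars -/
  [mod : Module k car]
  /-- `(c x) y = c (x y)` -/
  [tower : IsScalarTower k car car]
  /-- `x (c y) = c (x y)` -/
  [comm : SMulCommClass k car car]

attribute [instance] CAlg.ring CAlg.mod CAlg.tower CAlg.comm

/-- The homomorphisms of `k`-algebras `F(X) → F(Y)`. -/
def Hm (k : Type) [Field k] (X Y : Finset ℕ) : Type := Free k X →ₙₐ[k] Free k Y

/-- the value of a homomorphism -/
noncomputable def Hm.app {k : Type} [Field k] {X Y : Finset ℕ} (f : Hm k X Y) (w : Free k X) : Free k Y :=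
  DFunLike.coe (F := Free k X →ₙₐ[k] Free k Y) f w

/-- the identity homomorphism -/
noncomputable def Hm.one (k : Type) [Field k] (X : Finset ℕ) : Hm k X X :=
  NonUnitalAlgHom.id k (Free k X)

/-- the composition `g ∘ f` of homomorphisms -/
noncomputable def Hm.comp {k : Type} [Field k] {X Y Z : Finset ℕ} (g : Hm k Y Z) (f : Hm k X Y) :
    Hm k X Z :=
  NonUnitalAlgHom.comp (A := Free k X) (B := Free k Y) (C := Free k Z) g f

/-- The category `Θ⁰` of the free algebras `F(X)`, `X ⊂ ℕ` finite. -/
def Theta0 (k : Type) [Field k] : Type := Finset ℕ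

/-- The morphisms of `Θ⁰` are all homomorphisms of `k`-algebras. -/
noncomputable instance (k : Type) [Field k] : Category (Theta0 k) where
  Hom X Y := Hm k X Y
  id X := Hm.one k X
  comp f g := Hm.comp g f

/-- a morphism of `Θ⁰` as a homomorphism of algebras -/
def toHm {k : Type} [Field k] {X Y : Theta0 k} (f : X ⟶ Y) : Hm k X Y := f

/-- The pairs of elements of `F(X)`. -/
def Prs (k : Type) [Field k] (X : Finset ℕ) : Type := Free k X × Free k X

/-- The homomorphisms of `k`-algebras `F(X) → H`. -/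
def HmTo {k : Type} [Field k] (H : CAlg k) (X : Finset ℕ) : Type := Free k X →ₙₐ[k] H.car

/-- the value of a homomorphism -/
noncomputable def HmTo.app {k : Type} [Field k] {H : CAlg k} {X : Finset ℕ} (ν : HmTo H X)
    (w : Free k X) : H.car :=
  DFunLike.coe (F := Free k X →ₙₐ[k] H.car) ν w

/-- `T''_H`, the intersection of the kernels of the homomorphisms `ν : F(X) → H` with
`T ⊆ ker ν`. -/
def clo {k : Type} [Field k] (H : CAlg k) (X : Finset ℕ) (T : Set (Prs k X)) : Set (Prs k X) :=
  {p | ∀ ν : HmTo H X, (∀ q ∈ T, ν.app q.1 = ν.app q.2) → ν.app p.1 = ν.app p.2}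

/-- The set `Cl_H(F(X))` of the `H`-closed sets `T = T''_H`. -/
def Cl {k : Type} [Field k] (H : CAlg k) (X : Finset ℕ) : Set (Set (Prs k X)) :=
  {T | T = clo H X T}

/-- Geometric equivalence. -/
def GeomEquiv {k : Type} [Field k] (H H' : CAlg k) : Prop := ∀ X : Finset ℕ, Cl H X = Cl H' X

/-- The homomorphisms `μ, μ' : F(X) → F(Y)` are equal modulo `T`: their compositions with the
natural map `F(Y) → F(Y)/T` are equal. -/
def EqMod {k : Type} [Field k] {X Y : Finset ℕ} (μ μ' : Hm k X Y) (T : Set (Prs k Y)) : Prop :=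
  ∀ w : Free k X, (Hm.app μ w, Hm.app μ' w) ∈ T

/-- An automorphism of the category `Θ⁰`. -/
def IsAut {k : Type} [Field k] (Φ : Theta0 k ⥤ Theta0 k) : Prop :=
  ∃ Ψ : Theta0 k ⥤ Theta0 k, Φ ⋙ Ψ = 𝟭 _ ∧ Ψ ⋙ Φ = 𝟭 _

/-- Automorphic equivalence: there are an automorphism `Φ` of the category `Θ⁰` and bijections
`α_X : Cl_H(F(X)) → Cl_{H'}(Φ(F(X)))` such that for all `μ₁, μ₂ : F(X₁) → F(X₂)` and all
`T ∈ Cl_H(F(X₂))`, the homomorphisms `μ₁, μ₂` are equal modulo `T` if and only if
`Φ(μ₁), Φ(μ₂)` are equal modulo `α(T)`. -/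
def AutEquiv {k : Type} [Field k] (H H' : CAlg k) : Prop :=
  ∃ Φ : Theta0 k ⥤ Theta0 k, IsAut Φ ∧
    ∃ α : ∀ X : Theta0 k, Cl H X ≃ Cl H' (Φ.obj X),
      ∀ (X₁ X₂ : Theta0 k) (μ₁ μ₂ : X₁ ⟶ X₂) (T : Cl H X₂),
        EqMod (toHm μ₁) (toHm μ₂) T.1 ↔
          EqMod (toHm (Φ.map μ₁)) (toHm (Φ.map μ₂)) (α X₂ T).1

end Pool.Agent.X278.GE
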