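import Pool.Agent.X278.GE.Defs

/-!
# Automorphic and geometric equivalence for commutative associative algebras: the example
-/

set_option autoImplicit false

open CategoryTheory

namespace Pool.Agent.X278.GE

variable {k : Type} [Field k]

/-! ### the free algebras -/

/-- the underlying polynomial -/
def val {X : Finset ℕ} (p : Free k X) : MvPolynomial X k := Subtype.val (p : Aug k X)

lemma val_inj {X : Finset ℕ} {p q : Free k X} (h : val p = val q) : p = q :=
  Subtype.ext (a1 := (p : Aug k X)) (a2 := (q : Aug k X)) h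

lemma val_const {X : Finset ℕ} (p : Free k X) : MvPolynomial.constantCoeff (val p) = 0 :=
  Subtype.property (p : Aug k X)

lemma val_add {X : Finset ℕ} (p q : Free k X) : val (p + q) = val p + val q := rfl
lemma val_mul {X : Finset ℕ} (p q : Free k X) : val (p * q) = val p * val q := rfl
lemma val_zero {X : Finset ℕ} : val (0 : Free k X) = 0 := rfl
lemma val_smul {X : Finset ℕ} (c : k) (p : Free k X) : val (c • p) = c • val p := rfl

/-- the element with given underlying polynomial -/
def mkF {X : Finset ℕ} (p : MvPolynomial X k) (hp : MvPolynomial.constantCoeff p = 0) :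
    Free k X := (⟨p, hp⟩ : Aug k X)

lemma val_mkF {X : Finset ℕ} (p : MvPolynomial X k) (hp : MvPolynomial.constantCoeff p = 0) :
    val (mkF p hp) = p := rfl

/-! ### the twist of the free algebras -/

section twist

variable (σ : k →+* k) (hσ : ∀ c, σ (σ c) = c)

/-- the coefficientwise twist -/
noncomputable def tw (X : Finset ℕ) (p : Free k X) : Free k X :=
  mkF (MvPolynomial.map σ (val p)) (by
    rw [MvPolynomial.constantCoeff_map, val_const, map_zero])

lemma val_tw (X : Finset ℕ) (p : Free k X) : val (tw σ X p) = MvPolynomial.map σ (val p) := rfl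

lemma tw_add (X : Finset ℕ) (p q : Free k X) : tw σ X (p + q) = tw σ X p + tw σ X q :=
  val_inj (map_add (MvPolynomial.map σ) (val p) (val q))

lemma tw_mul (X : Finset ℕ) (p q : Free k X) : tw σ X (p * q) = tw σ X p * tw σ X q :=
  val_inj (map_mul (MvPolynomial.map σ) (val p) (val q))

lemma tw_zero (X : Finset ℕ) : tw σ X 0 = 0 := val_inj (map_zero (MvPolynomial.map σ))

lemma tw_smul (X : Finset ℕ) (c : k) (p : Free k X) : tw σ X (c • p) = σ c • tw σ X p := by
  apply val_inj
  rw [val_tw, val_smul, val_smul, val_tw, MvPolynomial.smul_eq_C_mul, MvPolynomial.smul_eq_C_mul,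
    map_mul, MvPolynomial.map_C]

include hσ in
lemma tw_tw (X : Finset ℕ) (p : Free k X) : tw σ X (tw σ X p) = p := by
  apply val_inj
  rw [val_tw, val_tw, MvPolynomial.map_map]
  have : σ.comp σ = RingHom.id k := RingHom.ext hσ
  rw [this, MvPolynomial.map_id]

/-- the twist of a homomorphism -/
noncomputable def twh0 (X Y : Finset ℕ) (f : Free k X →ₙₐ[k] Free k Y) :
    Free k X →ₙₐ[k] Free k Y where
  toFun p := tw σ Y (f (tw σ X p))
  map_smul' c p := by
    rw [tw_smul, map_smul, tw_smul, hσ]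
    rfl
  map_zero' := by rw [tw_zero, map_zero, tw_zero]
  map_add' p q := by rw [tw_add, map_add, tw_add]
  map_mul' p q := by rw [tw_mul, map_mul, tw_mul]

/-- the twist of a homomorphism -/
noncomputable def twh (X Y : Finset ℕ) (f : Hm k X Y) : Hm k X Y := twh0 σ hσ X Y f

lemma twh_app (X Y : Finset ℕ) (f : Hm k X Y) (p : Free k X) :
    (twh σ hσ X Y f).app p = tw σ Y (f.app (tw σ X p)) := rfl

lemma Hm.ext {X Y : Finset ℕ} {f g : Hm k X Y} (h : ∀ w, f.app w = g.app w) : f = g :=
  NonUnitalAlgHom.ext (A := Free k X) (B := Free k Y) h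

lemma one_app (X : Finset ℕ) (p : Free k X) : (Hm.one k X).app p = p := rfl

lemma comp_app {X Y Z : Finset ℕ} (g : Hm k Y Z) (f : Hm k X Y) (p : Free k X) :
    (Hm.comp g f).app p = g.app (f.app p) := rfl

/-- the automorphism of `Θ⁰` -/
noncomputable def Phi : Theta0 k ⥤ Theta0 k where
  obj X := X
  map {X Y} f := twh σ hσ X Y f
  map_id X := by
    change twh σ hσ X X (Hm.one k X) = Hm.one k X
    apply Hm.ext
    intro p
    rw [twh_app, one_app, one_app, tw_tw σ hσ]
  map_comp {X Y Z} f g := by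
    change twh σ hσ X Z (Hm.comp g f) = Hm.comp (twh σ hσ Y Z g) (twh σ hσ X Y f)
    apply Hm.ext
    intro p
    rw [twh_app, comp_app, comp_app, twh_app, twh_app, tw_tw σ hσ]

lemma Phi_Phi : Phi σ hσ ⋙ Phi σ hσ = 𝟭 _ := by
  refine CategoryTheory.Functor.ext (fun X => rfl) ?_
  intro X Y f
  change (Phi σ hσ ⋙ Phi σ hσ).map f = 𝟙 X ≫ f ≫ 𝟙 Y
  rw [Category.id_comp, Category.comp_id]
  change twh σ hσ X Y (twh σ hσ X Y f) = toHm f
  apply Hm.ext
  intro p
  rw [twh_app, twh_app, tw_tw σ hσ, tw_tw σ hσ]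
  rfl

end twist

/-! ### the algebras -/

/-- the three-dimensional algebra with `v₁² = s`, `v₂² = a s` -/
@[ext] structure Ha (a : k) : Type where
  /-- coefficient of `v₁` -/
  p : k
  /-- coefficient of `v₂` -/
  q : k
  /-- coefficient of `s` -/
  r : k

namespace Ha

variable {a : k}

instance : Zero (Ha a) := ⟨⟨0, 0, 0⟩⟩
instance : Add (Ha a) := ⟨fun x y => ⟨x.p + y.p, x.q + y.q, x.r + y.r⟩⟩
instance : Neg (Ha a) := ⟨fun x => ⟨-x.p, -x.q, -x.r⟩⟩
instance : Mul (Ha a) := ⟨fun x y => ⟨0, 0, x.p * y.p + a * (x.q * y.q)⟩⟩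
instance : SMul k (Ha a) := ⟨fun c x => ⟨c * x.p, c * x.q, c * x.r⟩⟩

@[simp] lemma zero_p : (0 : Ha a).p = 0 := rfl
@[simp] lemma zero_q : (0 : Ha a).q = 0 := rfl
@[simp] lemma zero_r : (0 : Ha a).r = 0 := rfl
@[simp] lemma add_p (x y : Ha a) : (x + y).p = x.p + y.p := rfl
@[simp] lemma add_q (x y : Ha a) : (x + y).q = x.q + y.q := rfl
@[simp] lemma add_r (x y : Ha a) : (x + y).r = x.r + y.r := rfl
@[simp] lemma neg_p (x : Ha a) : (-x).p = -x.p := rfl
@[simp] lemma neg_q (x : Ha a) : (-x).q = -x.q := rfl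
@[simp] lemma neg_r (x : Ha a) : (-x).r = -x.r := rfl
@[simp] lemma mul_p (x y : Ha a) : (x * y).p = 0 := rfl
@[simp] lemma mul_q (x y : Ha a) : (x * y).q = 0 := rfl
@[simp] lemma mul_r (x y : Ha a) : (x * y).r = x.p * y.p + a * (x.q * y.q) := rfl
@[simp] lemma smul_p (c : k) (x : Ha a) : (c • x).p = c * x.p := rfl
@[simp] lemma smul_q (c : k) (x : Ha a) : (c • x).q = c * x.q := rfl
@[simp] lemma smul_r (c : k) (x : Ha a) : (c • x).r = c * x.r := rfl

instance : NonUnitalCommRing (Ha a) where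
  add_assoc x y z := by ext <;> simp <;> ring
  zero_add x := by ext <;> simp
  add_zero x := by ext <;> simp
  nsmul := nsmulRec
  zsmul := zsmulRec
  neg_add_cancel x := by ext <;> simp
  add_comm x y := by ext <;> simp <;> ring
  left_distrib x y z := by ext <;> simp <;> ring
  right_distrib x y z := by ext <;> simp <;> ring
  zero_mul x := by ext <;> simp
  mul_zero x := by ext <;> simp
  mul_assoc x y z := by ext <;> simp
  mul_comm x y := by ext <;> simp <;> ring

instance : Module k (Ha a) where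
  one_smul x := by ext <;> simp
  mul_smul c d x := by ext <;> simp <;> ring
  smul_zero c := by ext <;> simp
  smul_add c x y := by ext <;> simp <;> ring
  add_smul c d x := by ext <;> simp <;> ring
  zero_smul x := by ext <;> simp

instance : IsScalarTower k (Ha a) (Ha a) where
  smul_assoc c x y := by
    ext <;> simp
    ring

instance : SMulCommClass k (Ha a) (Ha a) where
  smul_comm c x y := by
    ext <;> simp
    ring

end Ha

/-- the algebra `Ha a` as an object of `Θ` -/
def HA (a : k) : CAlg k := { car := Ha a }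

section main

variable (σ : k →+* k) (hσ : ∀ c, σ (σ c) = c)

/-- the twisted homomorphism to the twisted algebra -/
noncomputable def twH0 (a b : k) (hab : σ a = b) (X : Finset ℕ) (f : Free k X →ₙₐ[k] Ha a) :
    Free k X →ₙₐ[k] Ha b where
  toFun p := ⟨σ (f (tw σ X p)).p, σ (f (tw σ X p)).q, σ (f (tw σ X p)).r⟩
  map_smul' c p := by
    rw [tw_smul, map_smul]
    ext <;> simp [hσ]
  map_zero' := by
    rw [tw_zero, map_zero]
    ext <;> simp
  map_add' p q := by
    rw [tw_add, map_add]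
    ext <;> simp
  map_mul' p q := by
    rw [tw_mul, map_mul]
    ext <;> simp [hab]

/-- the twisted homomorphism to the twisted algebra -/
noncomputable def twH (a b : k) (hab : σ a = b) (X : Finset ℕ) (f : HmTo (HA a) X) :
    HmTo (HA b) X := twH0 σ hσ a b hab X f

lemma twH_eq_iff (a b : k) (hab : σ a = b) (X : Finset ℕ) (f : HmTo (HA a) X)
    (p q : Free k X) : (twH σ hσ a b hab X f).app p = (twH σ hσ a b hab X f).app q ↔
      f.app (tw σ X p) = f.app (tw σ X q) := by
  change (⟨σ (f.app (tw σ X p) : Ha a).p, σ (f.app (tw σ X p) : Ha a).q,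
    σ (f.app (tw σ X p) : Ha a).r⟩ : Ha b) = ⟨σ (f.app (tw σ X q) : Ha a).p,
      σ (f.app (tw σ X q) : Ha a).q, σ (f.app (tw σ X q) : Ha a).r⟩ ↔ _
  constructor
  · intro h
    rw [Ha.ext_iff] at h
    obtain ⟨h1, h2, h3⟩ := h
    exact Ha.ext (σ.injective h1) (σ.injective h2) (σ.injective h3)
  · intro h
    rw [h]

/-- the twist of a set of pairs -/
def twT (X : Finset ℕ) (T : Set (Prs k X)) : Set (Prs k X) :=
  {p | (tw σ X p.1, tw σ X p.2) ∈ T}

include hσ in
lemma twT_twT (X : Finset ℕ) (T : Set (Prs k X)) : twT σ X (twT σ X T) = T := by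
  ext ⟨p, q⟩
  change (tw σ X (tw σ X p), tw σ X (tw σ X q)) ∈ T ↔ _
  rw [tw_tw σ hσ, tw_tw σ hσ]
  exact Iff.rfl

include hσ in
lemma clo_twT_le (a b : k) (hab : σ a = b) (X : Finset ℕ) (T : Set (Prs k X)) :
    clo (HA b) X (twT σ X T) ⊆ twT σ X (clo (HA a) X T) := by
  rintro ⟨p, q⟩ h
  change (tw σ X p, tw σ X q) ∈ clo (HA a) X T
  intro ν hν
  have h1 := h (twH σ hσ a b hab X ν) (by
    rintro ⟨p', q'⟩ h2
    exact (twH_eq_iff σ hσ a b hab X ν p' q').2 (hν _ h2))
  exact (twH_eq_iff σ hσ a b hab X ν p q).1 h1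

include hσ in
lemma clo_twT (a b : k) (hab : σ a = b) (X : Finset ℕ) (T : Set (Prs k X)) :
    clo (HA b) X (twT σ X T) = twT σ X (clo (HA a) X T) := by
  apply Set.Subset.antisymm (clo_twT_le σ hσ a b hab X T)
  have hba : σ b = a := by rw [← hab, hσ]
  have h := clo_twT_le σ hσ b a hba X (twT σ X T)
  rw [twT_twT σ hσ] at h
  rintro ⟨p, q⟩ h1
  have h2 := h h1
  change (tw σ X (tw σ X p), tw σ X (tw σ X q)) ∈ clo (HA b) X (twT σ X T) at h2
  rw [tw_tw σ hσ, tw_tw σ hσ] at h2
  exact h2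

include hσ in
lemma twT_mem (a b : k) (hab : σ a = b) (X : Finset ℕ) (T : Set (Prs k X))
    (hT : T ∈ Cl (HA a) X) : twT σ X T ∈ Cl (HA b) X := by
  change twT σ X T = clo (HA b) X (twT σ X T)
  rw [clo_twT σ hσ a b hab]
  exact congrArg _ hT

include hσ in
theorem autEquiv (a b : k) (hab : σ a = b) : AutEquiv (HA a) (HA b) := by
  have hba : σ b = a := by rw [← hab, hσ]
  refine ⟨Phi σ hσ, ⟨Phi σ hσ, Phi_Phi σ hσ, Phi_Phi σ hσ⟩, fun X =>
    { toFun := fun T => ⟨twT σ X T.1, twT_mem σ hσ a b hab X T.1 T.2⟩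
      invFun := fun T => ⟨twT σ X T.1, twT_mem σ hσ b a hba X T.1 T.2⟩
      left_inv := fun T => Subtype.ext (twT_twT σ hσ _ _)
      right_inv := fun T => Subtype.ext (twT_twT σ hσ _ _) }, ?_⟩
  intro X₁ X₂ μ₁ μ₂ T
  constructor
  · intro h w
    change (tw σ X₂ ((twh σ hσ X₁ X₂ μ₁).app w), tw σ X₂ ((twh σ hσ X₁ X₂ μ₂).app w)) ∈ T.1
    rw [twh_app, twh_app, tw_tw σ hσ, tw_tw σ hσ]
    exact h _
  · intro h w
    have h1 := h (tw σ X₁ w)
    change (tw σ X₂ ((twh σ hσ X₁ X₂ μ₁).app (tw σ X₁ w)),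
      tw σ X₂ ((twh σ hσ X₁ X₂ μ₂).app (tw σ X₁ w))) ∈ T.1 at h1
    rw [twh_app, twh_app, tw_tw σ hσ, tw_tw σ hσ, tw_tw σ hσ] at h1
    exact h1

end main

/-! ### homomorphisms from the free algebra -/

section lift

variable {H : Type} [NonUnitalCommRing H] [Module k H] [IsScalarTower k H H]
  [SMulCommClass k H H]

/-- the homomorphism to the unitization -/
noncomputable def ev (X : Finset ℕ) (f : X → H) : MvPolynomial X k →ₐ[k] Unitization k H :=
  MvPolynomial.aeval (fun i => (Unitization.inr (f i) : Unitization k H))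

lemma ev_fst (X : Finset ℕ) (f : X → H) (p : MvPolynomial X k) :
    (ev X f p).fst = MvPolynomial.constantCoeff p := by
  induction p using MvPolynomial.induction_on with
  | C a =>
    rw [MvPolynomial.constantCoeff_C, ← MvPolynomial.algebraMap_eq, AlgHom.commutes]
    rfl
  | add p q hp hq => rw [map_add, map_add, Unitization.fst_add, hp, hq]
  | mul_X p i hp =>
    rw [map_mul, map_mul, Unitization.fst_mul, hp]
    simp [ev]

/-- the universal property of the free algebra (existence) -/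
noncomputable def lift (X : Finset ℕ) (f : X → H) : Free k X →ₙₐ[k] H where
  toFun p := (ev X f (val p)).snd
  map_smul' c p := by
    rw [val_smul, map_smul]
    rfl
  map_zero' := by
    rw [val_zero, map_zero]
    rfl
  map_add' p q := by
    rw [val_add, map_add]
    rfl
  map_mul' p q := by
    have h1 : (ev X f (val p)).fst = 0 := by rw [ev_fst]; exact val_const p
    have h2 : (ev X f (val q)).fst = 0 := by rw [ev_fst]; exact val_const q
    rw [val_mul, map_mul, Unitization.snd_mul, h1, h2, zero_smul, zero_smul, zero_add, zero_add]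

/-- the variables -/
noncomputable def var (X : Finset ℕ) (i : X) : Free k X :=
  mkF (MvPolynomial.X i) (by simp)

lemma lift_var (X : Finset ℕ) (f : X → H) (i : X) : lift (k := k) X f (var X i) = f i := by
  change (ev X f (MvPolynomial.X i)).snd = f i
  simp [ev]

end lift

lemma clo_mono (H : CAlg k) (X : Finset ℕ)
    {S T : Set (Prs k X)} (h : S ⊆ T) : clo H X S ⊆ clo H X T :=
  fun _ hp ν hν => hp ν (fun q hq => hν q (h hq))

lemma subset_clo (H : CAlg k) (X : Finset ℕ)
    (T : Set (Prs k X)) : T ⊆ clo H X T := fun p hp _ hν => hν p hp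

lemma clo_mem (H : CAlg k) (X : Finset ℕ)
    (T : Set (Prs k X)) : clo H X T ∈ Cl H X := by
  apply Set.Subset.antisymm (subset_clo _ _ _)
  intro p hp ν hν
  exact hp ν (fun q hq => hq ν hν)

theorem not_geomEquiv (a b : k) (ha : a ≠ 0) (h : ∀ t : k, t ^ 2 * a ≠ b) :
    ¬ GeomEquiv (HA a) (HA b) := by
  intro hG
  let X : Finset ℕ := {0, 1}
  let i0 : X := ⟨0, by simp [X]⟩
  let i1 : X := ⟨1, by simp [X]⟩
  let x : Free k X := var X i0
  let y : Free k X := var X i1
  let T : Set (Prs k X) := {q | q = (x * y, 0) ∨ q = (y * y, a • (x * x))}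
  have h1 : clo (HA b) X T ⊆ clo (HA a) X T := by
    have h2 : clo (HA a) X T ∈ Cl (HA b) X := by
      rw [← hG X]
      exact clo_mem _ _ _
    have h3 : clo (HA a) X T = clo (HA b) X (clo (HA a) X T) := h2
    rw [h3]
    exact clo_mono _ _ (subset_clo _ _ _)
  have h2 : ((x * x, 0) : Prs k X) ∈ clo (HA b) X T := by
    intro ν' hν'
    let ν : Free k X →ₙₐ[k] Ha b := ν'
    have e1 : ν (x * y) = ν 0 := hν' (x * y, 0) (Or.inl rfl)
    have e2 : ν (y * y) = ν (a • (x * x)) := hν' (y * y, a • (x * x)) (Or.inr rfl)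
    rw [map_mul, map_zero] at e1
    rw [map_mul, map_smul, map_mul] at e2
    have e3 := congrArg Ha.r e1
    have e4 := congrArg Ha.r e2
    simp only [Ha.mul_r, Ha.zero_r, Ha.smul_r] at e3 e4
    change ν (x * x) = ν 0
    rw [map_mul, map_zero]
    ext
    · simp
    · simp
    · simp only [Ha.mul_r, Ha.zero_r]
      by_contra hne
      set X1 := (ν x).p
      set X2 := (ν x).q
      set Y1 := (ν y).p
      set Y2 := (ν y).q
      set q := X1 * X1 + b * (X2 * X2) with hq
      have e5 : b * (X1 * Y2 - X2 * Y1) ^ 2 = a * q ^ 2 := by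
        have : q * (Y1 * Y1 + b * (Y2 * Y2)) =
          (X1 * Y1 + b * (X2 * Y2)) ^ 2 + b * (X1 * Y2 - X2 * Y1) ^ 2 := by rw [hq]; ring
        rw [e3, e4] at this
        linear_combination -this
      have hD : X1 * Y2 - X2 * Y1 ≠ 0 := by
        intro h0
        rw [h0] at e5
        have : a * q ^ 2 = 0 := by rw [← e5]; ring
        rcases mul_eq_zero.1 this with h5 | h5
        · exact ha h5
        · exact hne (by simpa using h5)
      apply h (q / (X1 * Y2 - X2 * Y1))
      field_simp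
      linear_combination -e5
  have hx : lift (k := k) (H := Ha a) X (fun i => if i = i0 then ⟨1, 0, 0⟩ else ⟨0, 1, 0⟩) x =
      ⟨1, 0, 0⟩ := by
    rw [lift_var]; simp
  have hy : lift (k := k) (H := Ha a) X (fun i => if i = i0 then ⟨1, 0, 0⟩ else ⟨0, 1, 0⟩) y =
      ⟨0, 1, 0⟩ := by
    rw [lift_var]; simp [i0, i1]
  have h3 := h1 h2 (lift (k := k) (H := Ha a) X
    (fun i => if i = i0 then ⟨1, 0, 0⟩ else ⟨0, 1, 0⟩)) (by
    intro q hq
    rcases hq with rfl | rfl
    · change lift (k := k) (H := Ha a) X (fun i => if i = i0 then ⟨1, 0, 0⟩ else ⟨0, 1, 0⟩) (x * y) =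
        lift (k := k) (H := Ha a) X (fun i => if i = i0 then ⟨1, 0, 0⟩ else ⟨0, 1, 0⟩) 0
      rw [map_mul, map_zero, hx, hy]
      ext <;> simp
    · change lift (k := k) (H := Ha a) X (fun i => if i = i0 then ⟨1, 0, 0⟩ else ⟨0, 1, 0⟩) (y * y) =
        lift (k := k) (H := Ha a) X (fun i => if i = i0 then ⟨1, 0, 0⟩ else ⟨0, 1, 0⟩)
          (a • (x * x))
      rw [map_mul, map_smul, map_mul, hx, hy]
      ext <;> simp)
  change lift (k := k) (H := Ha a) X (fun i => if i = i0 then ⟨1, 0, 0⟩ else ⟨0, 1, 0⟩) (x * x) =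
        lift (k := k) (H := Ha a) X (fun i => if i = i0 then ⟨1, 0, 0⟩ else ⟨0, 1, 0⟩) 0 at h3
  rw [map_mul, map_zero, hx] at h3
  have h4 := congrArg Ha.r h3
  simp at h4

/-! ### the field -/

/-- the field `ℚ(√2)` -/
abbrev Q2 : Type := QuadraticAlgebra ℚ 2 0

instance : Fact (∀ r : ℚ, r ^ 2 ≠ 2 + 0 * r) := by
  refine ⟨fun r h => ?_⟩
  rw [zero_mul, add_zero] at h
  have h1 := irrational_sqrt_two
  apply h1
  refine ⟨|r|, ?_⟩
  have h2 : ((|r| : ℚ) : ℝ) = |(r : ℝ)| := by push_cast; rfl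
  rw [h2, ← Real.sqrt_sq_eq_abs]
  congr 1
  exact_mod_cast h

/-- Automorphic equivalence does not imply geometric equivalence. -/
theorem main : ∃ (k : Type) (_ : Field k) (_ : CharZero k) (H₁ H₂ : CAlg k),
    AutEquiv H₁ H₂ ∧ ¬ GeomEquiv H₁ H₂ := by
  let a : Q2 := ⟨0, 1⟩
  have ha : (starRingEnd Q2) a = -a := by
    change star a = -a
    rw [QuadraticAlgebra.star_mk]
    ext <;> simp [a]
  refine ⟨Q2, inferInstance, inferInstance, HA a, HA (-a),
    autEquiv (starRingEnd Q2) (fun c => star_star c) a (-a) ha, not_geomEquiv a (-a) ?_ ?_⟩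
  · intro h
    have := congrArg QuadraticAlgebra.im h
    simp [a] at this
  · intro t h
    have h0 : a ≠ 0 := by
      intro h
      have := congrArg QuadraticAlgebra.im h
      simp [a] at this
    have h1 : (t ^ 2 + 1) * a = 0 := by linear_combination h
    have h2 : t ^ 2 + 1 = 0 := (mul_eq_zero.1 h1).resolve_right h0
    have h3 := congrArg QuadraticAlgebra.re h2
    rw [pow_two] at h3
    simp at h3
    rw [QuadraticAlgebra.re_one] at h3
    nlinarith [mul_self_nonneg t.re, mul_self_nonneg t.im]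

end Pool.Agent.X278.GE
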